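import Pool.Agent.H71.CR.All
import Pool.Agent.H60.CR.BIN

/-!
# Vaught's conjecture for structures of bounded width in all arities

Structures are pairs `(c, u)` of a function `c` from the `r`-tuples of natural numbers to a finite
set and a function `u` from the natural numbers to a standard Borel space; every countable
structure for a finite relational language with countably many additional unary relations is of
this form.  Let `X` be a Borel isomorphism invariant class of such structures without perfectly
many isomorphism types.  We show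

1. the members of `X` of finite width, the members of `X` with a bounded number of germs at the
   directions of the structure, and (if `r = 2`) the members of `X` whose infinite induced
   substructures do not have perfectly many types, together have only countably many types;
2. if `X` does not have countably many types then uncountably many types in `X` are types of
   structures which have a divisible direction with infinitely many germs, and each of whose
   Gaifman graphs contains a subdivision of the infinite complete graph.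

For `r = 2` finite width means finite clique-width (the width is a form of the module-width); in
general it is the width of decompositions in which the tuples of every part have boundedly many
classes over the rest.  In particular the countable-or-perfect dichotomy holds for every Borel
class of structures of finite width, in all arities, and for every Borel class of structures in
which one of the Gaifman graphs does not contain a subdivision of the infinite complete graph.
-/

set_option autoImplicit false

open Set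

namespace Pool.Agent.Results.MP_5607ba_lc.BoundedWidth

/-- Structures: a label in `Fin n` for every `r`-tuple of natural numbers, and a colour in `C` for
every natural number. -/
abbrev Structure (r n : ℕ) (C : Type) : Type := ((Fin r → ℕ) → Fin n) × (ℕ → C)

/-- `g` is an isomorphism from the structure `x` onto the structure `y`. -/
def IsIsomorphism {r n : ℕ} {C : Type} (x y : Structure r n C) (g : Equiv.Perm ℕ) : Prop :=
  (∀ a : Fin r → ℕ, y.1 (g ∘ a) = x.1 a) ∧ ∀ i, y.2 (g i) = x.2 i

/-- `X` contains structures of only countably many isomorphism types. -/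
def CountablyManyTypes {r n : ℕ} {C : Type} (X : Set (Structure r n C)) : Prop :=
  ∃ D : Set (Structure r n C), D.Countable ∧ ∀ x ∈ X, ∃ y ∈ D, ∃ g, IsIsomorphism x y g

/-- `X` contains structures of perfectly many isomorphism types: some Borel map from the Cantor
space to `X` takes distinct points to structures which are not isomorphic. -/
def PerfectlyManyTypes {r n : ℕ} {C : Type} [MeasurableSpace C] (X : Set (Structure r n C)) :
    Prop :=
  ∃ F : (ℕ → Bool) → Structure r n C, Measurable F ∧ (∀ u, F u ∈ X) ∧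
    ∀ u v, u ≠ v → ¬ ∃ g, IsIsomorphism (F u) (F v) g

/-- The tuples `a` and `b` have the same relations to the set `Y`: every tuple of entries of `a`
and points of `Y` keeps its label when the entries of `a` are replaced by those of `b`. -/
def SameRelations {r n : ℕ} (c : (Fin r → ℕ) → Fin n) (Y : Set ℕ) (a b : Fin r → ℕ) : Prop :=
  ∀ s : Fin r → Fin r ⊕ Y,
    c (fun i => Sum.elim a Subtype.val (s i)) = c (fun i => Sum.elim b Subtype.val (s i))

/-- The tuples of points of `A` have at most `k` classes over `Y`: they can be labelled with `k`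
labels such that tuples with the same label have the same relations to `Y`. -/
def ClassesAtMost {r n : ℕ} (c : (Fin r → ℕ) → Fin n) (k : ℕ) (A Y : Set ℕ) : Prop :=
  ∃ f : (Fin r → ℕ) → Fin k, ∀ a b : Fin r → ℕ, (∀ i, a i ∈ A) → (∀ i, b i ∈ A) → f a = f b →
    SameRelations c Y a b

/-- The parts in the decompositions of the finite set `W`: single points, and unions of two
disjoint parts which have at most `k` classes over the rest of `W`. -/
inductive IsPart {r n : ℕ} (c : (Fin r → ℕ) → Fin n) (k : ℕ) (W : Finset ℕ) : Finset ℕ → Prop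
  | single (v : ℕ) : v ∈ W → IsPart c k W {v}
  | union (A B : Finset ℕ) : IsPart c k W A → IsPart c k W B → Disjoint A B →
      ClassesAtMost c k ((A ∪ B : Finset ℕ) : Set ℕ) ((W \ (A ∪ B) : Finset ℕ) : Set ℕ) →
      IsPart c k W (A ∪ B)

/-- The width is at most `k`: every nonempty finite set can be decomposed. -/
def WidthAtMost {r n : ℕ} (c : (Fin r → ℕ) → Fin n) (k : ℕ) : Prop :=
  ∀ W : Finset ℕ, W.Nonempty → IsPart c k W W

/-- Sets of finite index: their tuples have finitely many classes over the complement. -/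
def FiniteIndex {r n : ℕ} (c : (Fin r → ℕ) → Fin n) (A : Set ℕ) : Prop :=
  ∃ k, ClassesAtMost c k A Aᶜ

/-- `U` is a direction: a family of infinite sets of finite index, closed under intersections,
which contains of every set of finite index and its complement one. -/
def IsDirection {r n : ℕ} (c : (Fin r → ℕ) → Fin n) (U : Set (Set ℕ)) : Prop :=
  (∀ A ∈ U, FiniteIndex c A ∧ A.Infinite) ∧ (∀ A ∈ U, ∀ B ∈ U, A ∩ B ∈ U) ∧
    ∀ A, FiniteIndex c A → A ∈ U ∨ Aᶜ ∈ U

/-- The tuples `a` and `b` have the same germ at `U`: they have the same relations to some member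
of `U`. -/
def SameGerm {r n : ℕ} (c : (Fin r → ℕ) → Fin n) (U : Set (Set ℕ)) (a b : Fin r → ℕ) : Prop :=
  ∃ A ∈ U, SameRelations c A a b

/-- There are at most `m` germs at `U`. -/
def GermsAtMost {r n : ℕ} (c : (Fin r → ℕ) → Fin n) (U : Set (Set ℕ)) (m : ℕ) : Prop :=
  ∃ E : Finset (Fin r → ℕ), E.card ≤ m ∧ ∀ a, ∃ e ∈ E, SameGerm c U a e

/-- The direction `U` is divisible: for every member `A` the group of the automorphisms of `x`
which are the identity outside `A` has a subgroup `H`, closed for pointwise convergence, with a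
continuous homomorphism onto `Equiv.Perm ℕ` which takes the elements of `H` that are the identity
on some member of `U` to permutations with finite support. -/
def Divisible {r n : ℕ} {C : Type} (x : Structure r n C) (U : Set (Set ℕ)) : Prop :=
  ∀ A ∈ U, ∃ H : Subgroup (Equiv.Perm ℕ),
    (∀ g ∈ H, IsIsomorphism x x g ∧ ∀ z, z ∉ A → g z = z) ∧
    (∀ g : Equiv.Perm ℕ, (∀ E : Finset ℕ, ∃ h ∈ H, ∀ z ∈ E, h z = g z) → g ∈ H) ∧
    ∃ φ : H →* Equiv.Perm ℕ, Function.Surjective φ ∧
      (∀ i : ℕ, ∃ E : Finset ℕ, ∀ h h' : H,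
        (∀ z ∈ E, (h : Equiv.Perm ℕ) z = (h' : Equiv.Perm ℕ) z) → φ h i = φ h' i) ∧
      ∀ (h : H) (B : Set ℕ), B ∈ U → (∀ z ∈ B, (h : Equiv.Perm ℕ) z = z) → {i | φ h i ≠ i}.Finite

/-- The structures which `x` induces on the infinite sets of natural numbers, in all their
enumerations. -/
def Substructures {r n : ℕ} {C : Type} (x : Structure r n C) : Set (Structure r n C) :=
  {y | ∃ f : ℕ → ℕ, Function.Injective f ∧ y = (fun a => x.1 (f ∘ a), fun i => x.2 (f i))}

/-- Two points are joined if some tuple with a label different from `e` contains them. -/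
def gaifmanGraph {r n : ℕ} (c : (Fin r → ℕ) → Fin n) (e : Fin n) : SimpleGraph ℕ :=
  SimpleGraph.fromRel fun i j => ∃ a : Fin r → ℕ, c a ≠ e ∧ i ∈ range a ∧ j ∈ range a

/-- `G` contains a subdivision of the complete graph on infinitely many vertices: there are
different vertices `b i` and paths `P i j` from `b i` to `b j`, which contain no other vertex
`b k`; two of these paths meet only in the vertices `b k`. -/
def ContainsSubdividedClique (G : SimpleGraph ℕ) : Prop :=
  ∃ (b : ℕ → ℕ) (P : ∀ i j, G.Walk (b i) (b j)), Function.Injective b ∧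
    (∀ i j, i < j → (P i j).IsPath ∧ ∀ k, b k ∈ (P i j).support → k = i ∨ k = j) ∧
    ∀ i j k l, i < j → k < l → (i, j) ≠ (k, l) →
      ∀ v ∈ (P i j).support, v ∈ (P k l).support → v ∈ range b

open Pool.Agent.CR in
lemma so_iff {r n : ℕ} {c : (Fin r → ℕ) → Fin n} {Y : Set ℕ} {a b : Fin r → ℕ} :
    SO (nb c) Y (List.ofFn a) (List.ofFn b) ↔ SameRelations c Y a b := by
  constructor
  · rintro ⟨-, h⟩ s
    let D : List ℕ := (List.ofFn s).filterMap fun t => Sum.elim (fun _ => none) (fun y => some y.1) t
    have hD : ∀ y ∈ D, y ∈ Y := by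
      intro y hy
      obtain ⟨t, -, ht⟩ := List.mem_filterMap.1 hy
      match t, ht with
      | Sum.inr z, hz =>
        have hz' : some z.1 = some y := hz
        rw [← Option.some.inj hz']
        exact z.2
    let q : List (ℕ × ℕ) := List.ofFn fun i =>
      (Sum.elim a Subtype.val (s i), Sum.elim b Subtype.val (s i))
    have hq : ∀ z ∈ q, z ∈ Pool.Agent.TK.dg D ++ (List.ofFn a).zip (List.ofFn b) := by
      intro z hz
      obtain ⟨i, rfl⟩ := (List.mem_ofFn' _ _).1 hz
      rw [List.mem_append]
      simp only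
      rcases hs : s i with j | y
      · right
        have h1 := get_zip (x := List.ofFn a) (y := List.ofFn b) (i := j)
          (by rw [List.length_ofFn]; exact j.2) (by rw [List.length_ofFn]; exact j.2)
        rw [List.getElem_ofFn, List.getElem_ofFn] at h1
        exact h1
      · left
        refine Pool.Agent.TK.mem_dg.2 ⟨rfl, List.mem_filterMap.2 ⟨s i, ?_, ?_⟩⟩
        · exact (List.mem_ofFn' _ _).2 ⟨i, rfl⟩
        · rw [hs]
          rfl
    have h1 := h D hD q hq
    have e1 : q.map Prod.fst = List.ofFn fun i => Sum.elim a Subtype.val (s i) := by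
      rw [List.map_ofFn]
      rfl
    have e2 : q.map Prod.snd = List.ofFn fun i => Sum.elim b Subtype.val (s i) := by
      rw [List.map_ofFn]
      rfl
    rw [e1, e2, nb_ofFn, nb_ofFn] at h1
    exact Fin.ext h1
  · intro h
    refine ⟨by rw [List.length_ofFn, List.length_ofFn], fun D hD q hq => ?_⟩
    unfold nb
    rw [List.length_map, List.length_map]
    by_cases hl : q.length = r
    · rw [if_pos hl, if_pos hl]
      subst hl
      have hs : ∀ i : Fin q.length, ∃ t : Fin q.length ⊕ Y, q[i] =
          (Sum.elim a Subtype.val t, Sum.elim b Subtype.val t) := by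
        intro i
        have h1 := hq q[i] (List.getElem_mem _)
        rw [List.mem_append] at h1
        rcases h1 with h1 | h1
        · have h2 := Pool.Agent.TK.mem_dg.1 h1
          refine ⟨Sum.inr ⟨q[i].1, hD _ h2.2⟩, Prod.ext rfl h2.1.symm⟩
        · obtain ⟨j, hj, hj', h2⟩ := zip_get h1
          rw [List.getElem_ofFn, List.getElem_ofFn] at h2
          exact ⟨Sum.inl ⟨j, by simpa using hj⟩, h2⟩
      choose s hs using hs
      have h3 := h s
      have e1 : (fun i : Fin q.length => (q.map Prod.fst).getD i 0) =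
          fun i => Sum.elim a Subtype.val (s i) := by
        funext i
        rw [List.getD_eq_getElem _ _ (by rw [List.length_map]; exact i.2), List.getElem_map]
        have := congrArg Prod.fst (hs i)
        exact this
      have e2 : (fun i : Fin q.length => (q.map Prod.snd).getD i 0) =
          fun i => Sum.elim b Subtype.val (s i) := by
        funext i
        rw [List.getD_eq_getElem _ _ (by rw [List.length_map]; exact i.2), List.getElem_map]
        have := congrArg Prod.snd (hs i)
        exact this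
      rw [e1, e2, h3]
    · rw [if_neg hl, if_neg hl]

/-- a tuple which contains the entries of a list -/
def pd (r : ℕ) (x : List ℕ) : Fin r → ℕ := fun i => x.getD i (x.getD 0 0)

lemma pd_mem {r : ℕ} {x : List ℕ} {A : Set ℕ} (hx : x ≠ []) (hA : ∀ a ∈ x, a ∈ A) (i : Fin r) :
    pd r x i ∈ A := by
  have h0 : 0 < x.length := List.length_pos_iff.2 hx
  unfold pd
  by_cases h : (i : ℕ) < x.length
  · rw [List.getD_eq_getElem _ _ h]
    exact hA _ (List.getElem_mem _)
  · rw [List.getD_eq_default _ _ (by omega), List.getD_eq_getElem _ _ h0]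
    exact hA _ (List.getElem_mem _)

open Pool.Agent.CR in
lemma so_of_pd {r n : ℕ} {c : (Fin r → ℕ) → Fin n} {Y : Set ℕ} {x x' : List ℕ}
    (hx : x.length ≤ r) (hxx : x.length = x'.length)
    (h : SameRelations c Y (pd r x) (pd r x')) : SO (nb c) Y x x' := by
  obtain ⟨-, h1⟩ := so_iff.2 h
  refine ⟨hxx, fun D hD => (h1 D hD).mono fun z hz => ?_⟩
  rw [List.mem_append] at hz ⊢
  refine hz.imp id fun hz => ?_
  obtain ⟨i, hi, hi', rfl⟩ := zip_get hz
  have h2 := get_zip (x := List.ofFn (pd r x)) (y := List.ofFn (pd r x')) (i := i)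
    (by rw [List.length_ofFn]; omega) (by rw [List.length_ofFn]; omega)
  rw [List.getElem_ofFn, List.getElem_ofFn] at h2
  unfold pd at h2
  rw [List.getD_eq_getElem _ _ hi, List.getD_eq_getElem _ _ hi'] at h2
  exact h2

open Pool.Agent.CR in
lemma so_nil {c : Lf} {Y : Set ℕ} : SO c Y [] [] :=
  ⟨rfl, fun D _ => pl_diag fun z hz => by
    simp only [List.zip_nil_left, List.append_nil] at hz
    exact (Pool.Agent.TK.mem_dg.1 hz).1⟩

open Pool.Agent.CR in
lemma few_of {r n k : ℕ} {c : (Fin r → ℕ) → Fin n} {A Y : Set ℕ} (h : ClassesAtMost c k A Y) :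
    Few (n, r) (nb c) k Y A := by
  obtain ⟨f, hf⟩ := h
  refine ⟨fun x => f (pd r x), fun x x' hx hxx hA hA' hff => ?_⟩
  by_cases h0 : x = []
  · subst h0
    have h1 : x' = [] := List.length_eq_zero_iff.1 hxx.symm
    subst h1
    exact so_nil
  · have h0' : x' ≠ [] := by
      rintro rfl
      exact h0 (List.length_eq_zero_iff.1 hxx)
    exact so_of_pd hx hxx (hf _ _ (pd_mem h0 hA) (pd_mem h0' hA') hff)

open Pool.Agent.CR in
lemma wd_of {r n k : ℕ} {c : (Fin r → ℕ) → Fin n} (h : WidthAtMost c k) :
    Wd (n, r) (nb c) k := by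
  intro W hW
  have key : ∀ A, IsPart c k W A → MW (n, r) (nb c) k W A := by
    intro A hA
    induction hA with
    | single v hv => exact MW.sing v hv
    | union A B _ _ hd hc h1 h2 =>
      refine MW.join A B h1 h2 hd ?_
      have h3 := few_of hc
      rw [Finset.coe_sdiff] at h3
      exact h3
  exact key W (h W hW)

open Pool.Agent.CR in
lemma fi_iff (hWFX : T_WFX) {r n : ℕ} {c : (Fin r → ℕ) → Fin n} {A : Set ℕ} :
    Fi (n, r) (nb c) A ↔ FiniteIndex c A := by
  classical
  constructor
  · rintro ⟨E, -, hE⟩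
    let f : (Fin r → ℕ) → Fin (E.length + 1) := fun a =>
      if h : ∃ i : Fin E.length, SO (nb c) Aᶜ (List.ofFn a) E[i] then h.choose.castSucc
      else Fin.last _
    refine ⟨E.length + 1, f, fun a b ha hb hab => ?_⟩
    have key : ∀ a : Fin r → ℕ, (∀ i, a i ∈ A) → ∃ i : Fin E.length,
        f a = i.castSucc ∧ SO (nb c) Aᶜ (List.ofFn a) E[i] := by
      intro a ha
      have h : ∃ i : Fin E.length, SO (nb c) Aᶜ (List.ofFn a) E[i] := by
        obtain ⟨e, he, h1⟩ := hE (List.ofFn a) (List.length_ofFn (f := a)).le fun z hz => by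
          obtain ⟨i, rfl⟩ := (List.mem_ofFn' _ _).1 hz
          exact ha i
        obtain ⟨i, hi, rfl⟩ := List.mem_iff_getElem.1 he
        exact ⟨⟨i, hi⟩, h1⟩
      refine ⟨h.choose, ?_, h.choose_spec⟩
      change (if h : ∃ i : Fin E.length, SO (nb c) Aᶜ (List.ofFn a) E[i] then
        h.choose.castSucc else Fin.last _) = _
      rw [dif_pos h]
    obtain ⟨i, hi, h1⟩ := key a ha
    obtain ⟨j, hj, h2⟩ := key b hb
    rw [hi, hj] at hab
    have hij : i = j := Fin.castSucc_injective _ hab
    subst hij
    refine so_iff.1 ⟨h1.1.trans h2.1.symm, fun D hD => ?_⟩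
    exact (h1.2 D hD).zip_trans h1.1 (h2.2 D hD).zip_symm
  · rintro ⟨k, hk⟩
    exact hWFX _ _ _ _ _ (few_of hk)

open Pool.Agent.CR in
lemma dirn_iff (hWFX : T_WFX) {r n : ℕ} {c : (Fin r → ℕ) → Fin n} {U : Set (Set ℕ)} :
    Dirn (n, r) (nb c) U ↔ IsDirection c U := by
  constructor
  · intro h
    exact ⟨fun A hA => ⟨(fi_iff hWFX).1 (h.fi A hA), h.fin A hA⟩, h.int,
      fun A hA => h.ult A ((fi_iff hWFX).2 hA)⟩
  · rintro ⟨h1, h2, h3⟩
    refine ⟨fun A hA => (fi_iff hWFX).2 (h1 A hA).1, fun A hA B hB hAB => ?_, h2,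
      fun A hA => h3 A ((fi_iff hWFX).1 hA), fun A hA => (h1 A hA).2⟩
    rcases h3 B ((fi_iff hWFX).1 hB) with h | h
    · exact h
    · exfalso
      have h4 := h2 A hA _ h
      have h5 : A ∩ Bᶜ = ∅ := by
        ext x
        simp only [mem_inter_iff, mem_compl_iff, mem_empty_iff_false, iff_false, not_and, not_not]
        exact fun hx => hAB hx
      rw [h5] at h4
      exact (h1 _ h4).2 finite_empty

open Pool.Agent.CR in
lemma so_mono {c : Lf} {Y Y' : Set ℕ} {x x' : List ℕ} (h : SO c Y x x') (hY : Y' ⊆ Y) :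
    SO c Y' x x' := ⟨h.1, fun D hD => h.2 D fun y hy => hY (hD y hy)⟩

lemma sr_mono {r n : ℕ} {c : (Fin r → ℕ) → Fin n} {Y Y' : Set ℕ} {a b : Fin r → ℕ}
    (h : SameRelations c Y a b) (hY : Y' ⊆ Y) : SameRelations c Y' a b :=
  so_iff.1 (so_mono (so_iff.2 h) hY)

open Pool.Agent.CR in
lemma sr_trans {r n : ℕ} {c : (Fin r → ℕ) → Fin n} {Y : Set ℕ} {a b d : Fin r → ℕ}
    (h : SameRelations c Y a b) (h' : SameRelations c Y d b) : SameRelations c Y a d := by
  have h1 := so_iff.2 h
  have h2 := so_iff.2 h'
  exact so_iff.1 ⟨h1.1.trans h2.1.symm, fun D hD =>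
    (h1.2 D hD).zip_trans h1.1 (h2.2 D hD).zip_symm⟩

lemma sg_trans {r n : ℕ} {c : (Fin r → ℕ) → Fin n} {U : Set (Set ℕ)} (hU : IsDirection c U)
    {a b d : Fin r → ℕ} (h : SameGerm c U a b) (h' : SameGerm c U d b) : SameGerm c U a d := by
  obtain ⟨A, hA, h1⟩ := h
  obtain ⟨B, hB, h2⟩ := h'
  exact ⟨A ∩ B, hU.2.1 A hA B hB,
    sr_trans (sr_mono h1 inter_subset_left) (sr_mono h2 inter_subset_right)⟩

open Pool.Agent.CR in
lemma atM_of (hWFX : T_WFX) {r n m : ℕ} {c : (Fin r → ℕ) → Fin n}
    (h : ∀ U, IsDirection c U → GermsAtMost c U m) : AtM (n, r) (nb c) m := by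
  intro U hU f hf1 hf2
  have hU' := (dirn_iff hWFX).1 hU
  obtain ⟨E, hE, hE'⟩ := h U hU'
  choose e he1 he2 using hE'
  obtain ⟨i, -, j, -, hij, hee⟩ := Finset.exists_ne_map_eq_of_card_lt_of_maps_to
    (s := (Finset.univ : Finset (Fin (m + 1)))) (t := E) (f := fun i => e (pd r (f i)))
    (by rw [Finset.card_fin]; omega) (fun i _ => he1 _)
  have h1 := he2 (pd r (f i))
  have h2 := he2 (pd r (f j))
  have hee' : e (pd r (f i)) = e (pd r (f j)) := hee
  rw [← hee'] at h2
  obtain ⟨A, hA, h3⟩ := sg_trans hU' h1 h2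
  exact ⟨i, j, hij, A, hA, so_of_pd (hf1 i) (hf2 i j) h3⟩

open Pool.Agent.CR in
lemma fgm_of {r n m : ℕ} {c : (Fin r → ℕ) → Fin n} {U : Set (Set ℕ)} (hU : IsDirection c U)
    (h : GermsAtMost c U m) : FGm (n, r) (nb c) U := by
  classical
  obtain ⟨E, -, hE⟩ := h
  let F : ℕ × (Fin r → ℕ) → Option (List ℕ) := fun t =>
    if h : ∃ x : List ℕ, x.length = t.1 ∧ SameGerm c U (pd r x) t.2 then some h.choose else none
  refine ⟨((Finset.range (r + 1) ×ˢ E).toList).filterMap F, fun x hx => ?_⟩
  have hx' : x.length ≤ r := hx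
  obtain ⟨e, he, h1⟩ := hE (pd r x)
  have h : ∃ y : List ℕ, y.length = x.length ∧ SameGerm c U (pd r y) e := ⟨x, rfl, h1⟩
  refine ⟨h.choose, List.mem_filterMap.2 ⟨(x.length, e), ?_, ?_⟩, ?_⟩
  · rw [Finset.mem_toList, Finset.mem_product, Finset.mem_range]
    exact ⟨by simp only; omega, he⟩
  · change (if h : ∃ y : List ℕ, y.length = x.length ∧ SameGerm c U (pd r y) e then
      some h.choose else none) = _
    rw [dif_pos h]
  · obtain ⟨A, hA, h3⟩ := sg_trans hU h1 h.choose_spec.2
    exact ⟨A, hA, so_of_pd hx' h.choose_spec.1.symm h3⟩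

open Pool.Agent.CR in
lemma graph_eq {r n : ℕ} (c : (Fin r → ℕ) → Fin n) (e : Fin n) :
    Gf (nb c) (fun l => if l = r then (e : ℕ) else 0) = gaifmanGraph c e := by
  have key : ∀ i j, (∃ l : List ℕ, nb c l ≠ (if l.length = r then (e : ℕ) else 0) ∧ i ∈ l ∧ j ∈ l) ↔
      ∃ a : Fin r → ℕ, c a ≠ e ∧ i ∈ range a ∧ j ∈ range a := by
    intro i j
    constructor
    · rintro ⟨l, h1, h2, h3⟩
      have hl : l.length = r := by
        by_contra hl
        apply h1
        unfold nb
        rw [if_neg hl, if_neg hl]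
      subst hl
      have e1 : List.ofFn (fun i : Fin l.length => l.getD i 0) = l := by
        apply List.ext_getElem
        · rw [List.length_ofFn]
        · intro k hk hk'
          rw [List.getElem_ofFn, List.getD_eq_getElem _ _ hk']
      refine ⟨fun i => l.getD i 0, fun h => h1 ?_, ?_, ?_⟩
      · unfold nb
        rw [if_pos rfl, if_pos rfl, h]
      · rw [← e1] at h2
        exact (List.mem_ofFn' _ _).1 h2
      · rw [← e1] at h3
        exact (List.mem_ofFn' _ _).1 h3
    · rintro ⟨a, h1, h2, h3⟩
      refine ⟨List.ofFn a, ?_, (List.mem_ofFn' _ _).2 h2, (List.mem_ofFn' _ _).2 h3⟩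
      rw [nb_ofFn, List.length_ofFn, if_pos rfl]
      exact fun h => h1 (Fin.ext h)
  ext i j
  unfold Gf gaifmanGraph
  rw [SimpleGraph.fromRel_adj, SimpleGraph.fromRel_adj]
  refine and_congr_right fun _ => or_congr ?_ ?_
  · exact key i j
  · exact key j i

open Pool.Agent.CR in
lemma rich_of (hWFX : T_WFX) (hTKB : T_TKB) {r n : ℕ} {C : Type} {c0 : C}
    {x : Structure r (n + 1) C} (h : Rich (n + 1, r) (enc c0 x)) :
    (∀ e, ContainsSubdividedClique (gaifmanGraph x.1 e)) ∧
      ∃ U, IsDirection x.1 U ∧ (∀ m, ¬ GermsAtMost x.1 U m) ∧ Divisible x U := by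
  obtain ⟨U, hU1, hU2, hU3⟩ := h
  rw [bn_enc] at hU1 hU2
  have hU1' := (dirn_iff hWFX).1 hU1
  refine ⟨fun e => ?_, U, hU1', fun m hm => hU2 (fgm_of hU1' hm), ?_⟩
  · obtain ⟨B, hB1, hB2⟩ := hTKB (n + 1, r) (nb x.1) U (fun l => if l = r then (e : ℕ) else 0)
      (lb_nb x.1) hU1 hU2
    rw [graph_eq] at hB2
    exact Pool.Agent.CW.pf_TKC _ B hB1 hB2
  · intro A hA
    obtain ⟨H, h1, h2, φ, h3, h4, h0⟩ := hU3 A hA
    refine ⟨H, fun g hg => ⟨?_, (h1 g hg).2⟩, h2, φ, h3, h4, h0⟩
    have h5 := (h1 g hg).1
    refine ⟨fun a => ?_, fun i => ?_⟩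
    · have h6 := h5.2 (List.ofFn a)
      have h7 : nb x.1 (List.ofFn a) = nb x.1 ((List.ofFn a).map g) := (Prod.ext_iff.1 h6).2
      rw [List.map_ofFn, nb_ofFn, nb_ofFn] at h7
      exact (Fin.ext h7).symm
    · have h6 := h5.2 [i]
      exact (Prod.ext_iff.1 h6).1.symm

open Pool.Agent.CR in
/-- **Theorem.** Let `X` be a Borel set of structures that is closed under isomorphisms.  Then `X`
has countably many or perfectly many isomorphism types, or the following two statements hold.

The members of `X` which have finite width, or for some `m` at most `m` germs at every direction,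
or (if `r = 2`) infinite substructures of not perfectly many types, have countably many types.

There are uncountably many types of members of `X` that have a divisible direction with infinitely
many germs and all of whose Gaifman graphs contain a subdivision of the infinite complete graph. -/
theorem result {r n : ℕ} {C : Type} [MeasurableSpace C] [StandardBorelSpace C]
    (X : Set (Structure r n C)) (hX : MeasurableSet X)
    (hinv : ∀ x ∈ X, ∀ y g, IsIsomorphism x y g → y ∈ X) :
    CountablyManyTypes X ∨ PerfectlyManyTypes X ∨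
      (CountablyManyTypes {x ∈ X | (∃ k, WidthAtMost x.1 k) ∨
          (∃ m, ∀ U, IsDirection x.1 U → GermsAtMost x.1 U m) ∨
          (r = 2 ∧ ¬ PerfectlyManyTypes (Substructures x))} ∧
        ¬ CountablyManyTypes {x ∈ X | (∀ e, ContainsSubdividedClique (gaifmanGraph x.1 e)) ∧
          ∃ U, IsDirection x.1 U ∧ (∀ m, ¬ GermsAtMost x.1 U m) ∧ Divisible x U}) := by
  rcases X.eq_empty_or_nonempty with rfl | ⟨x0, hx0⟩
  · exact Or.inl ⟨∅, countable_empty, by simp⟩
  obtain ⟨m, rfl⟩ : ∃ m, n = m + 1 := ⟨n - 1, by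
    have := (x0.1 fun _ => 0).pos
    omega⟩
  rcases final_cwg (fun c0 : C => all_CWG c0) a_NFG a_WAM a_GMA a_GMB a_GM2 a_GM3 X hX
    (fun x hx y ⟨g, h1, h2⟩ => hinv x hx y g ⟨h1, h2⟩) with h | h | ⟨h1, h2⟩
  · exact Or.inl h
  · exact Or.inr (Or.inl h)
  · refine Or.inr (Or.inr ⟨?_, fun h => h2 ?_⟩)
    · obtain ⟨D, hD1, hD2⟩ := h1
      refine ⟨D, hD1, ?_⟩
      rintro x ⟨hx, ⟨k, hk⟩ | ⟨k, hk⟩ | ⟨rfl, hs⟩⟩
      · exact hD2 x ⟨hx, Or.inl ⟨k, wd_of hk⟩⟩
      · exact hD2 x ⟨hx, Or.inr ⟨k, atM_of a_WFX hk⟩⟩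
      · exact hD2 x ⟨hx, Or.inr (pf_BIN a_FCT a_REP (m + 1) C x hs)⟩
    · obtain ⟨D, hD1, hD2⟩ := h
      refine ⟨D, hD1, ?_⟩
      rintro x ⟨hx, c0, hR⟩
      exact hD2 x ⟨hx, rich_of a_WFX a_TKB hR⟩

end Pool.Agent.Results.MP_5607ba_lc.BoundedWidth
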