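import Pool.Agent.H71.ST.RED3
import Pool.Agent.H71.ST.Final3
import Pool.Agent.H76.HB.Asm
import Pool.Agent.H41.CW.Tkc
import Pool.Agent.H71.ND.GTrans

/-!
# Vaught's conjecture for sparse structures and the structure of counterexamples

Structures are maps from the finite lists of natural numbers to a standard Borel space `C`, the
colour `c0` means unrelated; relations of all arities occur at once.  Let `X` be a Borel
isomorphism invariant class without perfectly many isomorphism types.  We show that only countably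
many types in `X` have a Gaifman graph that does not contain a subdivision of the complete graph
on infinitely many vertices; in particular the countable-or-perfect dichotomy holds for every Borel
class of such structures, for instance planar graphs.  If `X` has uncountably many types, then
there is a countable set `O` of flap types such that all but countably many types in `X` have
finitely many, at least one, hub ends `w`, such that for every finite set `a` all components of
the Gaifman graph minus `a`, other than the `w a`, have a type in `O`; and in uncountably many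
types one of these hub ends is divisible by the infinite symmetric group.

The result is sharp: there is a nowhere dense graph `G` (for every `n` some finite complete graph
has no subdivision in `G` by paths of length at most `n`) such that the dichotomy for the vertex
colourings of `G` implies Vaught's conjecture for all Borel classes of structures.
-/

set_option autoImplicit false

open Set

namespace Pool.Agent.Results.MP_5607ba_lc.EndStructure

/-- `g` is an isomorphism from the structure `x` onto the structure `y`. -/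
def IsIsomorphism {C : Type} (x y : List ℕ → C) (g : Equiv.Perm ℕ) : Prop :=
  ∀ l : List ℕ, y (l.map g) = x l

/-- `A` contains structures of only countably many isomorphism types. -/
def CountablyManyTypes {C : Type} (A : Set (List ℕ → C)) : Prop :=
  ∃ D : Set (List ℕ → C), D.Countable ∧ ∀ x ∈ A, ∃ y ∈ D, ∃ g, IsIsomorphism x y g

/-- `A` contains structures of perfectly many isomorphism types: some Borel map from the Cantor
space to `A` takes distinct points to structures which are not isomorphic. -/
def PerfectlyManyTypes {C : Type} [MeasurableSpace C] (A : Set (List ℕ → C)) : Prop :=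
  ∃ F : (ℕ → Bool) → List ℕ → C, Measurable F ∧ (∀ u, F u ∈ A) ∧
    ∀ u v, u ≠ v → ¬ ∃ g, IsIsomorphism (F u) (F v) g

/-- The Gaifman graph of a structure: two points are adjacent if some list containing both has
a colour different from `c0`. -/
def gaifmanGraph {C : Type} (c0 : C) (x : List ℕ → C) : SimpleGraph ℕ where
  Adj u v := u ≠ v ∧ ∃ l : List ℕ, x l ≠ c0 ∧ u ∈ l ∧ v ∈ l
  symm := ⟨fun _ _ ⟨h, l, hl, hu, hv⟩ => ⟨h.symm, l, hl, hv, hu⟩⟩
  loopless := ⟨fun _ h => h.1 rfl⟩

/-- The vertices joined to `v` by a walk of `G` which avoids the set `S`: the component of `v`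
in `G - S`, if `v` is not in `S`. -/
def component (G : SimpleGraph ℕ) (S : Set ℕ) (v : ℕ) : Set ℕ :=
  {u | ∃ p : G.Walk v u, ∀ z ∈ p.support, z ∉ S}

/-- `w` is an end of `G`: it assigns to every finite set `S` of vertices a component of `G - S`,
and to larger sets smaller components. -/
def IsEnd (G : SimpleGraph ℕ) (w : Finset ℕ → Set ℕ) : Prop :=
  (∀ S : Finset ℕ, ∃ v, v ∉ S ∧ w S = component G S v) ∧ ∀ S S', S ⊆ S' → w S' ⊆ w S

/-- `w` is a hub end of `G`: there are different vertices `b i`, the hubs, and numbers `k i` such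
that for every finite set `F` and every `n` there is a vertex `v` in `w F` which is joined to each
of the hubs `b i`, `i ≤ n`, by a walk of length at most `k i` that avoids `F`, except that it may
end in `F`. -/
def IsHubEnd (G : SimpleGraph ℕ) (w : Finset ℕ → Set ℕ) : Prop :=
  IsEnd G w ∧ ∃ b k : ℕ → ℕ, Function.Injective b ∧ ∀ (F : Finset ℕ) (n : ℕ),
    ∃ v ∈ w F, ∀ i, i ≤ n → ∃ p : G.Walk v (b i), p.length ≤ k i ∧
      ∀ z ∈ p.support, z ∉ F ∨ z = b i

/-- `G` contains a subdivision of the infinite complete graph: there are distinct vertices `b i`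
and paths `P i j` from `b i` to `b j`, for `i < j`, which contain no other `b k`, and different
paths have no common vertices except the vertices `b k`. -/
def ContainsSubdividedClique (G : SimpleGraph ℕ) : Prop :=
  ∃ (b : ℕ → ℕ) (P : ∀ i j, G.Walk (b i) (b j)), Function.Injective b ∧
    (∀ i j, i < j → (P i j).IsPath ∧ ∀ k, b k ∈ (P i j).support → k = i ∨ k = j) ∧
    ∀ i j k l, i < j → k < l → (i, j) ≠ (k, l) →
      ∀ v ∈ (P i j).support, v ∈ (P k l).support → v ∈ range b

/-- `G` contains a subdivision of the complete graph on `k` vertices by paths of length at most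
`n`. -/
def ContainsShallowClique (k n : ℕ) (G : SimpleGraph ℕ) : Prop :=
  ∃ (b : Fin k → ℕ) (P : ∀ i j, G.Walk (b i) (b j)), Function.Injective b ∧
    (∀ i j, i < j → (P i j).IsPath ∧ (P i j).length ≤ n ∧
      ∀ r, b r ∈ (P i j).support → r = i ∨ r = j) ∧
    ∀ i j i' j', i < j → i' < j' → (i, j) ≠ (i', j') →
      ∀ v ∈ (P i j).support, v ∈ (P i' j').support → v ∈ range b

/-- `G` is nowhere dense: for every `n` there is a `k` such that `G` contains no subdivision of the
complete graph on `k` vertices by paths of length at most `n`. -/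
def NowhereDense (G : SimpleGraph ℕ) : Prop :=
  ∀ n, ∃ k, ¬ ContainsShallowClique k n G

/-- The colourings `c` and `c'` of the vertices of `G` are isomorphic: an automorphism of `G` takes
`c` to `c'`. -/
def SameColouring {C : Type} (G : SimpleGraph ℕ) (c c' : ℕ → C) : Prop :=
  ∃ g : Equiv.Perm ℕ, (∀ u v, G.Adj (g u) (g v) ↔ G.Adj u v) ∧ ∀ i, c' (g i) = c i

/-- The dichotomy for the colourings of the vertices of `G` with colours in `C`: every Borel set
`A` of colourings which is invariant under the automorphisms of `G` has perfectly many or countably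
many colourings up to isomorphism. -/
def ColouringDichotomy (G : SimpleGraph ℕ) (C : Type) [MeasurableSpace C] : Prop :=
  ∀ A : Set (ℕ → C), MeasurableSet A → (∀ c ∈ A, ∀ c', SameColouring G c c' → c' ∈ A) →
    (∃ F : (ℕ → Bool) → ℕ → C, Measurable F ∧ (∀ u, F u ∈ A) ∧
      ∀ u v, u ≠ v → ¬ SameColouring G (F u) (F v)) ∨
    ∃ D : Set (ℕ → C), D.Countable ∧ ∀ c ∈ A, ∃ c' ∈ D, SameColouring G c c'

/-- Vaught's conjecture for the structures with labels in `C`: every Borel isomorphism invariant
class has perfectly many or countably many types. -/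
def VaughtDichotomy (C : Type) [MeasurableSpace C] : Prop :=
  ∀ X : Set (List ℕ → C), MeasurableSet X → (∀ x ∈ X, ∀ y g, IsIsomorphism x y g → y ∈ X) →
    PerfectlyManyTypes X ∨ CountablyManyTypes X

/-- Flaps: a structure `x`, a finite list `a` of marks and a vertex `v`, which stands for its
component in the Gaifman graph of `x` minus `a`. -/
abbrev Flap (C : Type) : Type := (List ℕ → C) × List ℕ × ℕ

/-- The domain of a flap: the marks and the component. -/
def Flap.domain {C : Type} (c0 : C) (t : Flap C) : Set ℕ :=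
  {z | z ∈ t.2.1} ∪ component (gaifmanGraph c0 t.1) {z | z ∈ t.2.1} t.2.2

/-- The flaps `s` and `t` are isomorphic: a bijection of their domains takes the marks of `s`
to the marks of `t`, in their order, and preserves the colours of all lists. -/
def SameFlapType {C : Type} (c0 : C) (s t : Flap C) : Prop :=
  ∃ h : ℕ → ℕ, BijOn h (s.domain c0) (t.domain c0) ∧ s.2.1.map h = t.2.1 ∧
    ∀ l : List ℕ, (∀ z ∈ l, z ∈ s.domain c0) → t.1 (l.map h) = s.1 l

/-- `E` is a finite nonempty set of hub ends of the Gaifman graph of `x`, and every component of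
the graph minus a finite set `a` which is not one of the components `w a` for `w` in `E` has, with
the marks `a`, the type of a flap in `O`. -/
def AllEndsBut {C : Type} (c0 : C) (O : Set (Flap C)) (x : List ℕ → C)
    (E : Set (Finset ℕ → Set ℕ)) : Prop :=
  E.Finite ∧ E.Nonempty ∧ (∀ w ∈ E, IsHubEnd (gaifmanGraph c0 x) w) ∧
    ∀ (a : List ℕ) (v : ℕ), v ∉ a → (∃ w ∈ E, v ∈ w a.toFinset) ∨
      ∃ t ∈ O, SameFlapType c0 (x, a, v) t

/-- The end `w` is divisible: for every finite set `S` the group of the automorphisms of `x` which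
are the identity outside `w S` has a subgroup `H`, closed for pointwise convergence, with a
continuous homomorphism onto `Equiv.Perm ℕ` which is trivial on the automorphisms that fix some
finite set `R` and the component `w R` pointwise. -/
def DivisibleEnd {C : Type} (x : List ℕ → C) (w : Finset ℕ → Set ℕ) : Prop :=
  ∀ S : Finset ℕ, ∃ H : Subgroup (Equiv.Perm ℕ),
    (∀ g ∈ H, IsIsomorphism x x g ∧ ∀ z, z ∉ w S → g z = z) ∧
    (∀ g : Equiv.Perm ℕ, (∀ E : Finset ℕ, ∃ h ∈ H, ∀ z ∈ E, h z = g z) → g ∈ H) ∧
    ∃ φ : H →* Equiv.Perm ℕ, Function.Surjective φ ∧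
      (∀ n : ℕ, ∃ E : Finset ℕ, ∀ h h' : H,
        (∀ z ∈ E, (h : Equiv.Perm ℕ) z = (h' : Equiv.Perm ℕ) z) → φ h n = φ h' n) ∧
      ∀ g : H, (∃ R : Finset ℕ, ∀ z, z ∈ R ∨ z ∈ w R → (g : Equiv.Perm ℕ) z = z) → φ g = 1

lemma clique_of_hub {G : SimpleGraph ℕ} {w : Finset ℕ → Set ℕ} (h : IsHubEnd G w) :
    ContainsSubdividedClique G := by
  obtain ⟨-, b, k, hb, H⟩ := h
  refine Pool.Agent.CW.pf_TKC G (range b) (infinite_range_of_injective hb) ?_
  rintro _ ⟨i, rfl⟩ _ ⟨j, rfl⟩ - S hi hj
  obtain ⟨v, -, hv⟩ := H S (max i j)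
  obtain ⟨p, -, hp⟩ := hv i (le_max_left _ _)
  obtain ⟨q, -, hq⟩ := hv j (le_max_right _ _)
  refine ⟨p.reverse.append q, fun z hz => ?_⟩
  rw [SimpleGraph.Walk.mem_support_append_iff, SimpleGraph.Walk.support_reverse,
    List.mem_reverse] at hz
  rcases hz with hz | hz
  · rcases hp z hz with h | rfl
    · exact h
    · exact hi
  · rcases hq z hz with h | rfl
    · exact h
    · exact hj

lemma component_eq {C : Type} {c0 : C} {x : List ℕ → C} {S : Set ℕ} {v : ℕ} :
    component (gaifmanGraph c0 x) S v = Pool.Agent.TK.cp (Pool.Agent.H71.VK.mk c0 x) S v := by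
  classical
  ext u
  constructor
  · rintro ⟨p, hp⟩
    induction p with
    | nil => exact Pool.Agent.TK.Conn.refl (hp _ (by simp))
    | cons h p ih =>
      rename_i a b c
      have h1 : Pool.Agent.TK.Conn (Pool.Agent.H71.VK.mk c0 x) S a b := by
        refine Pool.Agent.TK.Conn.single (hp _ (by simp)) ?_ (hp _ ?_)
        · simp only [Pool.Agent.H71.VK.mk, decide_eq_true_eq]
          exact h
        · rw [SimpleGraph.Walk.support_cons]
          exact List.mem_cons_of_mem _ p.start_mem_support
      refine h1.trans (ih fun w hw => hp w ?_)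
      rw [SimpleGraph.Walk.support_cons]
      exact List.mem_cons_of_mem _ hw
  · rintro ⟨h1, h2⟩
    induction h2 with
    | refl => exact ⟨SimpleGraph.Walk.nil, by simpa using h1⟩
    | @tail b c _ hs ih =>
      obtain ⟨p, hp⟩ := ih
      have h3 : (gaifmanGraph c0 x).Adj b c := by
        have h4 := hs.1
        simp only [Pool.Agent.H71.VK.mk, decide_eq_true_eq] at h4
        exact h4
      refine ⟨p.concat h3, fun w hw => ?_⟩
      rw [SimpleGraph.Walk.support_concat] at hw
      simp only [List.mem_append, List.mem_singleton] at hw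
      rcases hw with hw | rfl
      · exact hp w hw
      · exact hs.2

open Classical in
/-- representatives of the flap types in `O` which occur in relational structures -/
noncomputable def rep {C : Type} (c0 : C) (t : Pool.Agent.TK.Fl C) : Flap C :=
  if h : ∃ s : Flap C, s.2.2 ∉ s.2.1 ∧ Pool.Agent.TK.FI (Pool.Agent.H71.VK.mk c0 s.1) s.2.1
    (Pool.Agent.TK.cp (Pool.Agent.H71.VK.mk c0 s.1) (Pool.Agent.TK.ms s.2.1) s.2.2)
      t.1 t.2.1 t.set
  then h.choose else (fun _ => c0, [], 0)

lemma sameFlapType_of_fi {C : Type} {c0 : C} {s t : Flap C} (hs : s.2.2 ∉ s.2.1)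
    (H : Pool.Agent.TK.FI (Pool.Agent.H71.VK.mk c0 s.1) s.2.1
      (Pool.Agent.TK.cp (Pool.Agent.H71.VK.mk c0 s.1) (Pool.Agent.TK.ms s.2.1) s.2.2)
      (Pool.Agent.H71.VK.mk c0 t.1) t.2.1
      (Pool.Agent.TK.cp (Pool.Agent.H71.VK.mk c0 t.1) (Pool.Agent.TK.ms t.2.1) t.2.2)) :
    SameFlapType c0 s t := by
  obtain ⟨h, h1, h2, h3⟩ := Pool.Agent.H71.ST.fi_map
    (Pool.Agent.TK.isCp_cp (M := Pool.Agent.H71.VK.mk c0 s.1) (A := Pool.Agent.TK.ms s.2.1)
      (v := s.2.2) hs).disj H
  have e : ∀ r : Flap C, r.domain c0 = Pool.Agent.TK.ms r.2.1 ∪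
      Pool.Agent.TK.cp (Pool.Agent.H71.VK.mk c0 r.1) (Pool.Agent.TK.ms r.2.1) r.2.2 := by
    intro r
    rw [Flap.domain, component_eq]
    rfl
  refine ⟨h, ?_, h1, fun l hl => h3 l ?_⟩
  · rw [e, e]
    exact h2
  · intro z hz
    rw [← e]
    exact hl z hz

lemma isHubEnd_of_hubE {C : Type} {c0 : C} {x : List ℕ → C} {w : Set ℕ → Set ℕ}
    (hw : Pool.Agent.TK.IsDir (Pool.Agent.H71.VK.mk c0 x) w)
    (h : Pool.Agent.H71.ST.HubE (Pool.Agent.H71.VK.mk c0 x) w) :
    IsHubEnd (gaifmanGraph c0 x) (fun S : Finset ℕ => w (S : Set ℕ)) := by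
  classical
  obtain ⟨b, k, hb, H⟩ := h
  refine ⟨⟨fun S => ?_, fun S S' hSS => hw.2 _ _ S'.finite_toSet (by exact_mod_cast hSS)⟩,
    b, fun i => k i + 1, hb, fun F n => ?_⟩
  · obtain ⟨v, hv, hD⟩ := hw.1 (S : Set ℕ) S.finite_toSet
    exact ⟨v, by simpa using hv, by rw [component_eq]; exact hD⟩
  · obtain ⟨v, hv, H'⟩ := H (F : Set ℕ) n F.finite_toSet
    refine ⟨v, hv, fun i hi => ?_⟩
    obtain ⟨z, hz, hzb⟩ := H' i hi
    have hvF : v ∉ (F : Set ℕ) := by
      obtain ⟨u, hu, hD⟩ := hw.1 (F : Set ℕ) F.finite_toSet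
      rw [hD] at hv
      exact Pool.Agent.TK.Conn.not_right hv
    obtain ⟨p, hp, hp'⟩ := Pool.Agent.H71.ST.walk_of_ball (G := gaifmanGraph c0 x)
      (fun u v huv => by
        simp only [Pool.Agent.H71.VK.mk, decide_eq_true_eq] at huv
        exact huv) hvF (k i) hz
    have hadj : (gaifmanGraph c0 x).Adj z (b i) := by
      simp only [Pool.Agent.H71.VK.mk, decide_eq_true_eq] at hzb
      exact hzb
    refine ⟨p.concat hadj, ?_, fun y hy => ?_⟩
    · rw [SimpleGraph.Walk.length_concat]
      exact Nat.succ_le_succ hp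
    · rw [SimpleGraph.Walk.support_concat] at hy
      simp only [List.mem_append, List.mem_singleton] at hy
      rcases hy with hy | rfl
      · exact Or.inl (by simpa using hp' y hy)
      · exact Or.inr rfl

lemma allEndsBut_of_endsH {C : Type} {c0 : C} {O : Set (Pool.Agent.TK.Fl C)} {x : List ℕ → C}
    {Wd : Set (Set ℕ → Set ℕ)}
    (h : Pool.Agent.H71.ST.EndsH O (Pool.Agent.H71.VK.mk c0 x) Wd) :
    AllEndsBut c0 (rep c0 '' O) x ((fun w => fun S : Finset ℕ => w (S : Set ℕ)) '' Wd) := by
  classical
  obtain ⟨h1, h2, h3, h4⟩ := h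
  refine ⟨h1.image _, h2.image _, ?_, ?_⟩
  · rintro _ ⟨w, hw, rfl⟩
    obtain ⟨h5, h6, -⟩ := h3 w hw
    exact isHubEnd_of_hubE h5 h6
  · intro a v hva
    have hva' : v ∉ Pool.Agent.TK.ms a := hva
    rcases h4 a _ (Pool.Agent.TK.isCp_cp (M := Pool.Agent.H71.VK.mk c0 x) hva') with
      ⟨w, hw, hD⟩ | ⟨t, ht, hFI⟩
    · left
      refine ⟨_, ⟨w, hw, rfl⟩, ?_⟩
      have e : ((a.toFinset : Finset ℕ) : Set ℕ) = Pool.Agent.TK.ms a := by
        ext z
        simp [Pool.Agent.TK.ms]
      change v ∈ w ((a.toFinset : Finset ℕ) : Set ℕ)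
      rw [e, ← hD]
      exact Pool.Agent.TK.self_mem_cp hva'
    · right
      refine ⟨rep c0 t, ⟨t, ht, rfl⟩, ?_⟩
      have hex : ∃ s : Flap C, s.2.2 ∉ s.2.1 ∧
          Pool.Agent.TK.FI (Pool.Agent.H71.VK.mk c0 s.1) s.2.1
          (Pool.Agent.TK.cp (Pool.Agent.H71.VK.mk c0 s.1) (Pool.Agent.TK.ms s.2.1) s.2.2)
            t.1 t.2.1 t.set := ⟨(x, a, v), hva, hFI⟩
      have e : rep c0 t = hex.choose := by
        rw [rep, dif_pos hex]
      rw [e]
      exact sameFlapType_of_fi (s := (x, a, v)) hva (hFI.trans hex.choose_spec.2.symm)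

lemma divisibleEnd_of_divE {C : Type} {c0 : C} {x : List ℕ → C} {w : Set ℕ → Set ℕ}
    (h : Pool.Agent.H71.ST.DivE (Pool.Agent.H71.VK.mk c0 x) w) :
    DivisibleEnd x (fun S : Finset ℕ => w (S : Set ℕ)) := by
  intro S
  obtain ⟨H, h1, h2, φ, h3, h4, h5⟩ := h (S : Set ℕ) S.finite_toSet
  refine ⟨H, fun g hg => ⟨fun l => ?_, (h1 g hg).2⟩, h2, φ, h3, h4, fun g => ?_⟩
  · exact ((Pool.Agent.H71.VK.isoH_mk_iff.1 (h1 g hg).1) l).symm
  · rintro ⟨R, hR⟩
    exact h5 g ⟨(R : Set ℕ), R.finite_toSet, fun z hz => hR z (Or.inl (by simpa using hz)),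
      fun z hz => hR z (Or.inr hz)⟩

/-- Part (1): let `X` be a Borel isomorphism invariant class of countable structures.  Then `X`
has perfectly many isomorphism types, or only countably many types in `X` have a Gaifman graph
without subdivision of the infinite complete graph and one of the following holds: `X` has only
countably many types, or there is a countable set `O` of flap types such that all but countably
many types in `X` have finitely many hub ends, at least one, such that the components of the
complements of finite sets which do not belong to these ends have types in `O`, and for uncountably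
many types in `X` one of these hub ends is divisible. -/
theorem part_one {C : Type} [MeasurableSpace C] [StandardBorelSpace C] (c0 : C)
    (X : Set (List ℕ → C)) (hX : MeasurableSet X)
    (hinv : ∀ x ∈ X, ∀ y g, IsIsomorphism x y g → y ∈ X) :
    PerfectlyManyTypes X ∨
      CountablyManyTypes {x ∈ X | ¬ ContainsSubdividedClique (gaifmanGraph c0 x)} ∧
      (CountablyManyTypes X ∨ ∃ O : Set (Flap C), O.Countable ∧
        CountablyManyTypes {x ∈ X | ¬ ∃ E, AllEndsBut c0 O x E} ∧
        ¬ CountablyManyTypes {x ∈ X | ∃ E, AllEndsBut c0 O x E ∧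
          ∃ w ∈ E, DivisibleEnd x w}) := by
  have hF : Pool.Agent.H71.ST.FINAL3 C c0 :=
    Pool.Agent.H71.ST.final3_of_hub Pool.Agent.HB.hubf_all
  have hI : ∀ c ∈ X, ∀ c', Pool.Agent.TK.RIso c c' → c' ∈ X := fun c hc c' ⟨h, hh⟩ =>
    hinv c hc c' h fun l => (hh l).symm
  have hperf : (∃ f : (ℕ → Bool) → List ℕ → C, Measurable f ∧ (∀ x, f x ∈ X) ∧
      ∀ x x', x ≠ x' → ¬ Pool.Agent.TK.RIso (f x) (f x')) → PerfectlyManyTypes X := by
    rintro ⟨f, h1, h2, h3⟩
    exact ⟨f, h1, h2, fun u v huv ⟨g, hg⟩ => h3 u v huv ⟨g, fun l => (hg l).symm⟩⟩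
  rcases Pool.Agent.H71.ST.reds3 hF X hX hI with
    h | ⟨T', hT1', hT2'⟩ | ⟨O, hO, ⟨T', hT1', hT2'⟩, h⟩
  · exact Or.inl (hperf h)
  · have hX : CountablyManyTypes X := by
      refine ⟨T', hT1', fun x hx => ?_⟩
      obtain ⟨y, hy, g, hg⟩ := hT2' x hx
      exact ⟨y, hy, g, fun l => (hg l).symm⟩
    obtain ⟨D, hD1, hD2⟩ := hX
    exact Or.inr ⟨⟨D, hD1, fun x hx => hD2 x hx.1⟩, Or.inl ⟨D, hD1, hD2⟩⟩
  · have hcnt : CountablyManyTypes {x ∈ X | ¬ ∃ E, AllEndsBut c0 (rep c0 '' O) x E} := by
      refine ⟨T', hT1', ?_⟩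
      rintro x ⟨hx, hx'⟩
      obtain ⟨y, hy, g, hg⟩ := hT2' x hx (fun ⟨Wd, hW⟩ => hx' ⟨_, allEndsBut_of_endsH hW⟩)
      exact ⟨y, hy, g, fun l => (hg l).symm⟩
    refine Or.inr ⟨?_, Or.inr ⟨rep c0 '' O, hO.image _, hcnt, ?_⟩⟩
    · obtain ⟨D, hD1, hD2⟩ := hcnt
      refine ⟨D, hD1, ?_⟩
      rintro x ⟨hx, hx'⟩
      refine hD2 x ⟨hx, ?_⟩
      rintro ⟨E, -, ⟨w, hw⟩, hE, -⟩
      exact hx' (clique_of_hub (hE w hw))
    · rintro ⟨D, hD1, hD2⟩
      apply h
      refine ⟨D, hD1, fun c hc => ?_⟩
      rintro ⟨Wd, hW, w, hw, hdiv⟩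
      obtain ⟨y, hy, g, hg⟩ := hD2 c ⟨hc, _, allEndsBut_of_endsH hW, _, ⟨w, hw, rfl⟩,
        divisibleEnd_of_divE hdiv⟩
      exact ⟨y, hy, g, fun l => (hg l).symm⟩

/-- Part (2): the nowhere dense graph with the colourings of which all structures can be coded. -/
theorem part_two : ∃ G : SimpleGraph ℕ, NowhereDense G ∧
    ∀ (C : Type) [MeasurableSpace C] [StandardBorelSpace C],
      ColouringDichotomy G C → VaughtDichotomy C := by
  obtain ⟨G, h1, h2⟩ := Pool.Agent.H71.ND.exists_graph
  refine ⟨G, fun n => ?_, fun C _ _ hC X hX hinv => ?_⟩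
  · obtain ⟨k, hk⟩ := h1 n
    exact ⟨k, fun ⟨b, P, hb, h3, h4⟩ => hk b P hb h3 h4⟩
  · rcases h2 (C := C) (fun A hA hA' => (hC A hA (by
        rintro c hc c' ⟨g, hg, hg'⟩
        exact hA' c hc c' g hg hg')).symm) X hX hinv with h | h
    · exact Or.inr h
    · exact Or.inl h

/-- **Theorem.** (1) Let `X` be a Borel isomorphism invariant class of countable structures.  Then
`X` has perfectly many isomorphism types, or only countably many types in `X` have a Gaifman graph
without subdivision of the infinite complete graph and one of the following holds: `X` has only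
countably many types, or there is a countable set `O` of flap types such that all but countably
many types in `X` have finitely many hub ends, at least one, such that the components of the
complements of finite sets which do not belong to these ends have types in `O`, and for uncountably
many types in `X` one of these hub ends is divisible.
(2) There is a nowhere dense graph `G` such that the dichotomy for the colourings of the vertices of
`G` implies Vaught's conjecture. -/
theorem result :
    (∀ (C : Type) [MeasurableSpace C] [StandardBorelSpace C] (c0 : C) (X : Set (List ℕ → C)),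
      MeasurableSet X → (∀ x ∈ X, ∀ y g, IsIsomorphism x y g → y ∈ X) →
      PerfectlyManyTypes X ∨
        CountablyManyTypes {x ∈ X | ¬ ContainsSubdividedClique (gaifmanGraph c0 x)} ∧
        (CountablyManyTypes X ∨ ∃ O : Set (Flap C), O.Countable ∧
          CountablyManyTypes {x ∈ X | ¬ ∃ E, AllEndsBut c0 O x E} ∧
          ¬ CountablyManyTypes {x ∈ X | ∃ E, AllEndsBut c0 O x E ∧
            ∃ w ∈ E, DivisibleEnd x w})) ∧
    ∃ G : SimpleGraph ℕ, NowhereDense G ∧
      ∀ (C : Type) [MeasurableSpace C] [StandardBorelSpace C],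
        ColouringDichotomy G C → VaughtDichotomy C :=
  ⟨fun _ _ _ c0 X hX hinv => part_one c0 X hX hinv, part_two⟩

end Pool.Agent.Results.MP_5607ba_lc.EndStructure
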